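import Pool.Agent.N804.LI.Key
import Pool.Agent.N804.LI.GlueF
import Pool.Agent.N804.LI.GlueM

/-!
# Linear independence of the ordinates is one upper bound for an exponential moment of primes

`P ε y` is the error term in the prime number theorem at `x = e^y`, normalised by `x^{1/2}` and smoothed
with a Gaussian of width `ε` on the logarithmic scale.  The mean value of `exp (κ P)` is at least the value
which it would have if the terms of the explicit formula were independent, and it is at most this value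
only if the Riemann Hypothesis holds and the ordinates are linearly independent over `ℚ`.
-/

open Filter Topology MeasureTheory

namespace Pool.Agent.Results.MP_0ec205_nt.ExponentialMoment

/-- the modified Bessel function `I₀(x) = ∫_0^1 exp (x cos 2πu) du` -/
noncomputable def I0 (x : ℝ) : ℝ := ∫ u in (0 : ℝ)..1, Real.exp (x * Real.cos (2 * Real.pi * u))

/-- the normal density with standard deviation `ε` -/
noncomputable def g (ε v : ℝ) : ℝ := Real.exp (-(v ^ 2 / (2 * ε ^ 2))) / (ε * Real.sqrt (2 * Real.pi))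

/-- `P_ε(y) = e^{y/2 + ε²/8} - ∑ Λ(n) n^{-1/2} g_ε(y - log n)` -/
noncomputable def P (ε y : ℝ) : ℝ := Real.exp (y / 2 + ε ^ 2 / 8) -
  ∑' n : ℕ, ArithmeticFunction.vonMangoldt n / Real.sqrt n * g ε (y - Real.log n)

/-- the exponential moment `(1/Y) ∫_0^Y exp (κ P_ε(y)) dy` -/
noncomputable def M (ε κ Y : ℝ) : ℝ := (1 / Y) * ∫ y in (0 : ℝ)..Y, Real.exp (κ * P ε y)

/-- the set `Γ⁺` of the problem: positive ordinates of zeros on the critical line (distinct) -/
def Γ : Set ℝ := {γ : ℝ | 0 < γ ∧ riemannZeta (1 / 2 + γ * Complex.I) = 0}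

/-- order of vanishing of `ζ` at `s` -/
noncomputable def mult (s : ℂ) : ℕ := analyticOrderNatAt riemannZeta s

/-- the value for independent phases, distinct ordinates with multiplicities as weights -/
noncomputable def B (ε κ : ℝ) : ℝ := ∏' γ : Γ, I0 (2 * κ * (mult (1 / 2 + (γ : ℝ) * Complex.I) *
  Real.exp (-(ε ^ 2 * (γ : ℝ) ^ 2 / 2))))

/-- the value for independent phases, ordinates repeated according to multiplicity -/
noncomputable def B1 (ε κ : ℝ) : ℝ := ∏' k : (Σ γ : Γ, Fin (mult (1 / 2 + (γ : ℝ) * Complex.I))),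
  I0 (2 * κ * Real.exp (-(ε ^ 2 * (k.1 : ℝ) ^ 2 / 2)))

/-- all nontrivial zeros of `ζ` are simple -/
def Simple : Prop := ∀ s : ℂ, riemannZeta s = 0 → 0 < s.re → s.re < 1 → mult s = 1

/-- For every `ε, κ > 0`: (1) RH and the linear independence of `Γ⁺` hold together iff the upper limit of
the exponential moment is at most `B ε κ`; (2) RH, simplicity and linear independence hold together iff it is
at most `B1 ε κ`; (3) under RH the moment converges to a limit which is at least `B ε κ`, with equality iff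
`Γ⁺` is linearly independent. -/
theorem result (ε κ : ℝ) (hε : 0 < ε) (hκ : 0 < κ) :
    ((RiemannHypothesis ∧ LinearIndependent ℚ (fun γ : Γ => (γ : ℝ))) ↔
      ∀ δ : ℝ, 0 < δ → ∀ᶠ Y in atTop, M ε κ Y ≤ B ε κ + δ) ∧
    ((RiemannHypothesis ∧ Simple ∧ LinearIndependent ℚ (fun γ : Γ => (γ : ℝ))) ↔
      ∀ δ : ℝ, 0 < δ → ∀ᶠ Y in atTop, M ε κ Y ≤ B1 ε κ + δ) ∧
    (RiemannHypothesis → ∃ E : ℝ, Tendsto (M ε κ) atTop (𝓝 E) ∧ B ε κ ≤ E ∧
      (E = B ε κ ↔ LinearIndependent ℚ (fun γ : Γ => (γ : ℝ)))) := by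
  obtain ⟨h1, -⟩ := N804.LI.zeta_dist N804.LI.ef N804.LI.zr N804.LI.abs N804.LI.lan N804.LI.dir N804.LI.cj hε hκ
  have h3 := N804.LI.zeta_simple N804.LI.ef N804.LI.zr N804.LI.abs N804.LI.lan N804.LI.dir N804.LI.cj hε hκ
  have hs : Simple ↔ ∀ s, N804.LI.IZ s → N804.LI.mz s = 1 :=
    ⟨fun h s hs => h s hs.1 hs.2.1 hs.2.2, fun h s a b c => h s ⟨a, b, c⟩⟩
  exact ⟨h1, by rw [hs]; exact h3,
    N804.LI.zeta_key N804.LI.ef N804.LI.zr N804.LI.mean N804.LI.pert N804.LI.dir N804.LI.cj hε hκ⟩

end Pool.Agent.Results.MP_0ec205_nt.ExponentialMoment
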