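import Mathlib
import Pool.Agent.N967.P.Zeta

/-!
# Linear independence of the ordinates of the zeta zeros and the Baez-Duarte distance of shifted products

Let `Γ` be the set of the positive ordinates of the nontrivial zeros of the zeta function.  For an L-function `L` let

  `d_M²(L) = inf (1/2π) ∫ |1 - L(1/2 + it) A(1/2 + it)|² dt / (1/4 + t²)`,

the infimum over all Dirichlet polynomials `A(s) = ∑_(n ≤ M) a_n n^(-s)` (Nyman, Beurling, Baez-Duarte).  Let `T` be the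
set of all `τ = m_1 γ_1 + ... + m_k γ_k` with `k ≥ 3`, different `γ_1, ..., γ_k` in `Γ` and nonzero integers
`m_1, ..., m_k`.

**Theorem 1.**  The Riemann hypothesis holds AND `Γ` is linearly independent over `ℚ` if and only if for every `τ` in `T`
the limits of `d_M² log M` exist (and are finite) for `ζ(s)`, `ζ(s + iτ)` and `ζ(s) ζ(s + iτ)`, and

  `lim d_M²(ζ(s) ζ(s + iτ)) log M = lim d_M²(ζ(s)) log M + lim d_M²(ζ(s + iτ)) log M`.

**Theorem 2.**  The Riemann hypothesis holds, all nontrivial zeros are simple AND `Γ` is linearly independent over `ℚ` if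
and only if for every `τ` in `T`

  `d_M²(ζ(s) ζ(s + iτ)) log M → C(0) + C(τ)`,  `C(τ) = 2 Re (Λ'/Λ)(1 + iτ)`,  `Λ(s) = s (s - 1) π^(-s/2) Γ(s/2) ζ(s)`,

where `C(0) = 2 + γ - log 4π`.

**Theorem 3 (asymptotic formula).**  Both are consequences of the following.  For all real `τ_1, ..., τ_n` (`n ≥ 1`) let
`F(s) = ζ(s + iτ_1) ... ζ(s + iτ_n)`.  If the Riemann hypothesis holds then

  `d_M²(F) log M → ∑_ρ m(ρ)² / |ρ|²`,

the sum over the different zeros `ρ` of `F` in the critical strip with the total multiplicities `m(ρ)`; if it fails then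
`d_M²(F) ≥ δ > 0` for all `M`.  Under the Riemann hypothesis `∑_ρ m(ρ) / |ρ|² = C(τ_1) + ... + C(τ_n)`, and the limits
for the factors add up to the limit for `F` if and only if no two factors have a common zero.

Idea: relations between ordinates are coincidences of zeros of vertically shifted zeta functions, and the squares in the
formula show them.  The functions `F` have poles at `1 - iτ_j`; the asymptotic formula is proved for all L-functions
with poles on the line `re s = 1` (modules `Pool.Agent.N967.P`, a version of `Pool.Agent.N967.G`).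

With helpers 27, 72, 73, 75, 80, 106, 135, 136, 157, 163, 239, 278, 325, 429, 455, 457, 494, 558, 572, 603, 614, 717, 769,
803, 814, 832, 849, 861, 951.
-/

set_option autoImplicit false

namespace Pool.Agent.Results.MP_0ec205_nt.ShiftedProductsDistance

open Complex MeasureTheory Filter Topology

/-! ### the distance and the constants -/

/-- `|1 - L(s) A(s)|² / (1/4 + t²)` at `s = 1/2 + i t`, for the Dirichlet polynomial `A(s) = ∑_(n ≤ M) a(n) n^(-s)`. -/
noncomputable def integrand (L : ℂ → ℂ) (M : ℕ) (a : ℕ → ℂ) (t : ℝ) : ℝ :=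
  ‖1 - L (1 / 2 + t * I) * ∑ n ∈ Finset.Icc 1 M, a n * (n : ℂ) ^ (-(1 / 2 + t * I))‖ ^ 2 / (1 / 4 + t ^ 2)

/-- `d_M²(L)`: the infimum of `(1/2π) ∫ |1 - L A|² dt / (1/4 + t²)` over the Dirichlet polynomials of length `M`,
with values in `[0, ∞]`. -/
noncomputable def dist2 (L : ℂ → ℂ) (M : ℕ) : ENNReal :=
  ⨅ a : ℕ → ℂ, ENNReal.ofReal (1 / (2 * Real.pi)) * ∫⁻ t : ℝ, ENNReal.ofReal (integrand L M a t)

/-- `d_M²(L) log M → v` as `M → ∞`, for a real number `v ≥ 0` -/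
def HasLimit (L : ℂ → ℂ) (v : ℝ) : Prop :=
  0 ≤ v ∧ Tendsto (fun M : ℕ => dist2 L M * ENNReal.ofReal (Real.log M)) atTop (𝓝 (ENNReal.ofReal v))

/-- The completed zeta function `Λ(s) = s (s - 1) π^(-s/2) Γ(s/2) ζ(s)`, an entire function. -/
noncomputable def completed (s : ℂ) : ℂ := s * (s - 1) * completedRiemannZeta₀ s + 1

/-- `C(τ) = 2 Re (Λ'/Λ)(1 + iτ)` -/
noncomputable def C (τ : ℝ) : ℝ := 2 * (logDeriv completed (1 + τ * I)).re

/-! ### finite products of shifted zeta functions -/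

section
variable {ι : Type} [Fintype ι] (τ : ι → ℝ)

/-- `∏_j ζ(s + iτ_j)` -/
noncomputable def prodZ (s : ℂ) : ℂ := ∏ j, riemannZeta (s + τ j * I)

/-- the different zeros of the functions `ζ(s + iτ_j)` in the critical strip -/
def zeros : Set ℂ := {s : ℂ | (0 < s.re ∧ s.re < 1) ∧ ∃ j, riemannZeta (s + τ j * I) = 0}

/-- the total multiplicity of a zero -/
noncomputable def mult (s : ℂ) : ℕ := ∑ j, analyticOrderNatAt riemannZeta (s + τ j * I)

/-- The theorem for the product. -/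
structure Asymptotics : Prop where
  /-- the integrals converge -/
  integrable : RiemannHypothesis → ∀ (M : ℕ) (a : ℕ → ℂ), Integrable (integrand (prodZ τ) M a)
  /-- the sum over the zeros converges -/
  summable : RiemannHypothesis → Summable fun ρ : zeros τ => (mult τ (ρ : ℂ) : ℝ) ^ 2 / ‖(ρ : ℂ)‖ ^ 2
  /-- **the asymptotic formula** -/
  asymptotic : RiemannHypothesis → HasLimit (prodZ τ) (∑' ρ : zeros τ, (mult τ (ρ : ℂ) : ℝ) ^ 2 / ‖(ρ : ℂ)‖ ^ 2)
  /-- if the Riemann hypothesis fails then the distance does not tend to zero -/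
  bounded_below : ¬ RiemannHypothesis → ∃ δ : ℝ, 0 < δ ∧ ∀ M : ℕ, ENNReal.ofReal δ ≤ dist2 (prodZ τ) M
  /-- the criterion for the Riemann hypothesis -/
  iff_limit : RiemannHypothesis ↔ ∃ v : ℝ, HasLimit (prodZ τ) v
  /-- the first moment of the multiplicities -/
  first_moment : RiemannHypothesis →
    HasSum (fun ρ : zeros τ => (mult τ (ρ : ℂ) : ℝ) / ‖(ρ : ℂ)‖ ^ 2) (∑ j, C (τ j))
  /-- the limits for the factors add up if and only if no two factors have a common zero -/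
  additive : RiemannHypothesis → ∃ (v : ℝ) (w : ι → ℝ), HasLimit (prodZ τ) v ∧
    (∀ j, HasLimit (fun s => riemannZeta (s + τ j * I)) (w j)) ∧
    ∑ j, w j ≤ v ∧ (∑ j, w j = v ↔ ∀ i j, i ≠ j → ∀ s : ℂ, 0 < s.re → s.re < 1 →
      riemannZeta (s + τ i * I) = 0 → riemannZeta (s + τ j * I) ≠ 0)

end

/-! ### linear independence -/

/-- the set of the positive ordinates of the nontrivial zeros -/
def Γ : Set ℝ := {γ : ℝ | 0 < γ ∧ ∃ s : ℂ, (0 < s.re ∧ s.re < 1) ∧ s.im = γ ∧ riemannZeta s = 0}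

/-- all nontrivial zeros are simple -/
def SimpleZeros : Prop := ∀ s : ℂ, 0 < s.re → s.re < 1 → riemannZeta s = 0 → deriv riemannZeta s ≠ 0

/-- `T`: all combinations of at least three different elements of `Γ` with nonzero integer coefficients -/
def T : Set ℝ := {τ : ℝ | ∃ (S : Finset ℝ) (m : ℝ → ℤ), (S : Set ℝ) ⊆ Γ ∧ 3 ≤ S.card ∧ (∀ γ ∈ S, m γ ≠ 0) ∧
  τ = ∑ γ ∈ S, (m γ : ℝ) * γ}

/-! ### the theorem -/

lemma integrand_eq (L : ℂ → ℂ) (M : ℕ) (a : ℕ → ℂ) :
    integrand L M a = Pool.Agent.N967.G.integrand L (1 / 2) M a := by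
  funext t
  unfold integrand Pool.Agent.N967.G.integrand
  rw [Pool.Agent.N967.G.half_cast]

lemma dist2_eq (L : ℂ → ℂ) (M : ℕ) : dist2 L M = Pool.Agent.N967.G.dist2 L (1 / 2) M := by
  unfold dist2 Pool.Agent.N967.G.dist2
  simp only [integrand_eq]

lemma limit_eq (L : ℂ → ℂ) (v : ℝ) : HasLimit L v ↔ 0 ≤ v ∧ Pool.Agent.N967.P.Z.HL L v := by
  unfold HasLimit Pool.Agent.N967.P.Z.HL
  simp only [dist2_eq]

theorem asymptotics {ι : Type} [Fintype ι] [Nonempty ι] (τ : ι → ℝ) : Asymptotics τ := by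
  obtain ⟨b1, b2, b3, b4, b5, b6, -⟩ := Pool.Agent.N967.P.asyP (Pool.Agent.N967.P.Z.χ1 ι) τ
  rw [Pool.Agent.N967.P.Z.grh_eq, Pool.Agent.N967.P.Z.zeros_eq] at *
  simp only [Pool.Agent.N967.P.Z.mult_eq1] at b2 b3 b6
  rw [Pool.Agent.N967.P.Z.Ct_eq] at b6
  have hLf : Pool.Agent.N967.D.Lf (Pool.Agent.N967.P.Z.χ1 ι) τ = prodZ τ := funext (Pool.Agent.N967.P.Z.Lf_eq τ)
  rw [hLf] at b1 b4
  have hnn : (0 : ℝ) ≤ ∑' ρ : zeros τ, (mult τ (ρ : ℂ) : ℝ) ^ 2 / ‖(ρ : ℂ)‖ ^ 2 := tsum_nonneg fun ρ => by positivity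
  refine ⟨fun h M a => ?_, b2, fun h => (limit_eq _ _).2 ⟨hnn, (Pool.Agent.N967.P.Z.sc_iff τ _).1 (b3 h)⟩,
    fun h => ?_, ?_, b6, fun h => ?_⟩
  · rw [integrand_eq]
    exact b1 h M a
  · obtain ⟨δ, h1, h2⟩ := b4 h
    exact ⟨δ, h1, fun M => by rw [dist2_eq]; exact h2 M⟩
  · constructor
    · intro h
      exact ⟨_, (limit_eq _ _).2 ⟨hnn, (Pool.Agent.N967.P.Z.sc_iff τ _).1 (b3 h)⟩⟩
    · rintro ⟨v, hv⟩
      exact b5.2 ⟨_, ENNReal.ofReal_ne_top, (Pool.Agent.N967.P.Z.sc_iff τ v).2 ((limit_eq _ _).1 hv).2⟩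
  · have hG := (Pool.Agent.N967.P.Z.grh_eq τ).2 h
    obtain ⟨v, w, h1, h2, h3, h4⟩ := Pool.Agent.N967.P.addP (Pool.Agent.N967.P.Z.χ1 ι) τ hG
    have hw : 0 ≤ ∑ j, w j := Finset.sum_nonneg fun j _ => (h2 j).1
    refine ⟨v, w, (limit_eq _ _).2 ⟨by linarith, (Pool.Agent.N967.P.Z.sc_iff τ _).1 h1⟩,
      fun j => (limit_eq _ _).2 ⟨(h2 j).1, ?_⟩, h3, ?_⟩
    · have h6 := (Pool.Agent.N967.P.Z.sc_iff (ι := Unit) (fun _ => τ j) (w j)).1 (h2 j).2
      have h7 : (fun s : ℂ => ∏ i : Unit, riemannZeta (s + (((fun _ => τ j : Unit → ℝ) i : ℝ) : ℂ) * I)) =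
          fun s => riemannZeta (s + τ j * I) := by
        funext s
        simp
      rwa [h7] at h6
    · rw [h4]
      unfold Pool.Agent.N967.D.NoCommon
      simp only [Pool.Agent.N967.P.Z.χ1, Pool.Agent.N967.P.Z.zeta_eq]

/-- **The theorem.** -/
theorem result :
    -- RH and linear independence
    ((RiemannHypothesis ∧ LinearIndependent ℚ (fun γ : Γ => (γ : ℝ))) ↔ ∀ τ ∈ T, ∃ u v : ℝ,
      HasLimit riemannZeta u ∧ HasLimit (fun s => riemannZeta (s + τ * I)) v ∧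
        HasLimit (fun s => riemannZeta s * riemannZeta (s + τ * I)) (u + v)) ∧
    -- RH, simplicity and linear independence
    ((RiemannHypothesis ∧ SimpleZeros ∧ LinearIndependent ℚ (fun γ : Γ => (γ : ℝ))) ↔
      ∀ τ ∈ T, HasLimit (fun s => riemannZeta s * riemannZeta (s + τ * I)) (C 0 + C τ)) ∧
    -- the asymptotic formula
    (∀ (ι : Type) [Fintype ι] [Nonempty ι] (τ : ι → ℝ), Asymptotics τ) ∧
    -- the constant
    C 0 = 2 + Real.eulerMascheroniConstant - Real.log (4 * Real.pi) := by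
  have hli : LinearIndependent ℚ (fun γ : Γ => (γ : ℝ)) ↔ Pool.Agent.N967.P.Z.LIs Pool.Agent.N967.P.Z.Gam :=
    (Pool.Agent.N967.P.Z.lis_iff _).symm
  refine ⟨?_, ?_, fun ι _ _ τ => asymptotics τ, ?_⟩
  · rw [hli, Pool.Agent.N967.P.Z.main1]
    refine forall₂_congr fun τ _ => ?_
    unfold Pool.Agent.N967.P.Z.Add
    simp only [limit_eq]
    constructor
    · rintro ⟨u, v, h1, h2, h3, h4, h5⟩
      exact ⟨u, v, ⟨h1, h3⟩, ⟨h2, h4⟩, add_nonneg h1 h2, h5⟩
    · rintro ⟨u, v, ⟨h1, h3⟩, ⟨h2, h4⟩, -, h5⟩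
      exact ⟨u, v, h1, h2, h3, h4, h5⟩
  · rw [hli]
    have h1 := Pool.Agent.N967.P.Z.main2
    rw [show (RiemannHypothesis ∧ SimpleZeros ∧ Pool.Agent.N967.P.Z.LIs Pool.Agent.N967.P.Z.Gam) ↔
      (RiemannHypothesis ∧ Pool.Agent.N967.P.Z.Simple ∧ Pool.Agent.N967.P.Z.LIs Pool.Agent.N967.P.Z.Gam) from Iff.rfl]
    constructor
    · rintro h τ hτ
      refine (limit_eq _ _).2 ⟨?_, h1.1 h τ hτ⟩
      have h2 := (asymptotics (Pool.Agent.N967.P.Z.two τ)).first_moment h.1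
      rw [Fin.sum_univ_two] at h2
      have e0 : Pool.Agent.N967.P.Z.two τ 0 = 0 := by simp [Pool.Agent.N967.P.Z.two]
      have e1 : Pool.Agent.N967.P.Z.two τ 1 = τ := by simp [Pool.Agent.N967.P.Z.two]
      rw [e0, e1] at h2
      exact h2.nonneg fun ρ => by positivity
    · intro h
      exact h1.2 fun τ hτ => ((limit_eq _ _).1 (h τ hτ)).2
  · have hp : (1 : DirichletCharacter ℂ 1).IsPrimitive := DirichletCharacter.isPrimitive_one_level_one
    have h1 := Pool.Agent.N967.D.cst_eq (1 : DirichletCharacter ℂ 1) hp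
    have h2 : C 0 = 2 * (logDeriv (Pool.Agent.N967.D.Lam (1 : DirichletCharacter ℂ 1)) 1).re := by
      rw [Pool.Agent.N967.P.Z.Lam_one' rfl]
      unfold C
      have : (1 : ℂ) + ((0 : ℝ) : ℂ) * I = 1 := by simp
      rw [this]
      rfl
    rw [h2, h1]
    unfold Pool.Agent.N967.D.cst
    rw [if_pos rfl]

end Pool.Agent.Results.MP_0ec205_nt.ShiftedProductsDistance
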